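import Mathlib
import Pool.Prelude.Def_F_17ede623

/-!
Basic counting for graphs with an edge colouring in which all 4-cycles are rainbow.
-/

set_option autoImplicit false

open Finset N2633a9ba

namespace Pool.Agent.Helper14.RC4

open Classical in
/-- Neighbourhood as a finset. -/
noncomputable def nb {n : ℕ} (G : SimpleGraph (Fin n)) (v : Fin n) : Finset (Fin n) :=
  Finset.univ.filter (fun w => G.Adj v w)

lemma mem_nb {n : ℕ} {G : SimpleGraph (Fin n)} {v w : Fin n} : w ∈ nb G v ↔ G.Adj v w := by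
  simp [nb]

lemma coe_nb {n : ℕ} (G : SimpleGraph (Fin n)) (v : Fin n) :
    (nb G v : Set (Fin n)) = G.neighborSet v := by
  ext w; simp [mem_nb]

lemma card_nb_le {n : ℕ} (G : SimpleGraph (Fin n)) (v : Fin n) : (nb G v).card ≤ n := by
  simpa using Finset.card_le_univ (nb G v)

lemma sum_card_nb {n : ℕ} (G : SimpleGraph (Fin n)) :
    ∑ v, (nb G v).card = 2 * G.edgeSet.ncard := by
  classical
  have h1 := G.sum_degrees_eq_twice_card_edges
  have h2 : G.edgeSet.ncard = G.edgeFinset.card := by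
    rw [Set.ncard_eq_toFinset_card']
    rfl
  rw [h2, ← h1]
  refine Finset.sum_congr rfl fun v _ => ?_
  rw [← SimpleGraph.card_neighborFinset_eq_degree]
  congr 1
  ext w
  simp [mem_nb]

/-- Edges of the same colour at a vertex go to vertices with disjoint further neighbourhoods. -/
lemma star {n : ℕ} {G : SimpleGraph (Fin n)} {col : Fin n → Fin n → Fin n}
    (h : C4RainbowColoring G col) (a c : Fin n) (B : Finset (Fin n))
    (hB : B ⊆ nb G a) (hc : ∀ b ∈ B, col a b = c) :
    ∑ b ∈ B, ((nb G b).card - 1) ≤ n := by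
  classical
  have hdisj : ∀ x ∈ B, ∀ y ∈ B, x ≠ y → Disjoint ((nb G x).erase a) ((nb G y).erase a) := by
    intro x hx y hy hxy
    rw [Finset.disjoint_left]
    intro z hz hz'
    rw [Finset.mem_erase, mem_nb] at hz hz'
    have hax : G.Adj a x := mem_nb.1 (hB hx)
    have hay : G.Adj a y := mem_nb.1 (hB hy)
    have h4 : IsC4 G a x z y := by
      refine ⟨⟨hax.ne, hz.1.symm, hay.ne, hz.2.ne, hxy, hz'.2.ne'⟩, hax, hz.2, hz'.2.symm, hay.symm⟩
    have h5 := (h.2 a x z y h4).2.2.1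
    apply h5
    rw [hc x hx, ← hc y hy]
    exact h.1 a y hay
  have h1 : (B.biUnion fun b => (nb G b).erase a).card = ∑ b ∈ B, ((nb G b).erase a).card :=
    Finset.card_biUnion hdisj
  have h2 : (B.biUnion fun b => (nb G b).erase a).card ≤ n := by
    simpa using Finset.card_le_univ (B.biUnion fun b => (nb G b).erase a)
  calc ∑ b ∈ B, ((nb G b).card - 1) ≤ ∑ b ∈ B, ((nb G b).erase a).card :=
        Finset.sum_le_sum fun b _ => Finset.pred_card_le_card_erase
    _ ≤ n := by rw [← h1]; exact h2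

open Classical in
/-- The vertices of large degree. -/
noncomputable def hi {n : ℕ} (G : SimpleGraph (Fin n)) (ε : ℝ) : Finset (Fin n) :=
  Finset.univ.filter (fun v => ε * n / 2 ≤ ((nb G v).card : ℝ))

lemma mem_hi {n : ℕ} {G : SimpleGraph (Fin n)} {ε : ℝ} {v : Fin n} :
    v ∈ hi G ε ↔ ε * n / 2 ≤ ((nb G v).card : ℝ) := by
  simp [hi]

/-- Bound for the multiplicity of a colour at a vertex. -/
lemma mult {n : ℕ} {G : SimpleGraph (Fin n)} {col : Fin n → Fin n → Fin n}
    (h : C4RainbowColoring G col) {ε : ℝ} (hn : 4 ≤ ε * n) (a c : Fin n) (B : Finset (Fin n))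
    (hB : B ⊆ nb G a) (hB' : B ⊆ hi G ε) (hc : ∀ b ∈ B, col a b = c) :
    (B.card : ℝ) * ε ≤ 4 := by
  have h1 := star h a c B hB hc
  have h2 : ∀ b ∈ B, ε * n / 4 ≤ (((nb G b).card - 1 : ℕ) : ℝ) := by
    intro b hb
    have h3 := mem_hi.1 (hB' hb)
    have h4 : 1 ≤ (nb G b).card := by
      have : (0 : ℝ) < ((nb G b).card : ℝ) := by linarith
      exact_mod_cast this
    rw [Nat.cast_sub h4]
    push_cast
    linarith
  have h5 : (B.card : ℝ) * (ε * n / 4) ≤ n := by
    calc (B.card : ℝ) * (ε * n / 4) = ∑ b ∈ B, (ε * n / 4) := by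
          rw [Finset.sum_const, nsmul_eq_mul]
      _ ≤ ∑ b ∈ B, (((nb G b).card - 1 : ℕ) : ℝ) := Finset.sum_le_sum h2
      _ ≤ n := by exact_mod_cast h1
  have hn0 : (0 : ℝ) < n := by
    rcases Nat.eq_zero_or_pos n with h0 | h0
    · subst h0; simp at hn; linarith
    · exact_mod_cast h0
  have h6 : (B.card : ℝ) * ε * n ≤ 4 * n := by nlinarith
  exact le_of_mul_le_mul_right h6 hn0

lemma sum_hi {n : ℕ} {G : SimpleGraph (Fin n)} {ε : ℝ} (hε : 0 < ε)
    (he : ε * (n : ℝ) ^ 2 ≤ (G.edgeSet.ncard : ℝ)) :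
    3 / 2 * ε * (n : ℝ) ^ 2 ≤ ∑ b ∈ hi G ε, ((nb G b).card : ℝ) := by
  classical
  have h1 : ∑ v, ((nb G v).card : ℝ) = 2 * (G.edgeSet.ncard : ℝ) := by
    exact_mod_cast sum_card_nb G
  have h2 : ∑ v, ((nb G v).card : ℝ) =
      ∑ v ∈ hi G ε, ((nb G v).card : ℝ) + ∑ v ∈ (hi G ε)ᶜ, ((nb G v).card : ℝ) :=
    (Finset.sum_add_sum_compl _ _).symm
  have h3 : ∑ v ∈ (hi G ε)ᶜ, ((nb G v).card : ℝ) ≤ n * (ε * n / 2) := by
    calc ∑ v ∈ (hi G ε)ᶜ, ((nb G v).card : ℝ) ≤ ∑ v ∈ (hi G ε)ᶜ, (ε * n / 2) := by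
          refine Finset.sum_le_sum fun v hv => ?_
          rw [Finset.mem_compl, mem_hi, not_le] at hv
          exact hv.le
      _ = ((hi G ε)ᶜ.card : ℝ) * (ε * n / 2) := by rw [Finset.sum_const, nsmul_eq_mul]
      _ ≤ n * (ε * n / 2) := by
          refine mul_le_mul_of_nonneg_right ?_ (by positivity)
          have : (hi G ε)ᶜ.card ≤ n := by simpa using Finset.card_le_univ (hi G ε)ᶜ
          exact_mod_cast this
  nlinarith

/-- Neighbours of large degree. -/
noncomputable def hb {n : ℕ} (G : SimpleGraph (Fin n)) (ε : ℝ) (a : Fin n) : Finset (Fin n) :=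
  nb G a ∩ hi G ε

lemma sum_card_hb {n : ℕ} (G : SimpleGraph (Fin n)) (ε : ℝ) :
    ∑ a, (hb G ε a).card = ∑ b ∈ hi G ε, (nb G b).card := by
  classical
  have h1 : ∀ a, (hb G ε a).card = ∑ b ∈ hi G ε, if G.Adj a b then 1 else 0 := by
    intro a
    rw [Finset.sum_boole, hb]
    simp only [Nat.cast_id]
    congr 1
    ext b
    simp [mem_nb, and_comm]
  have h2 : ∀ b, (nb G b).card = ∑ a, if G.Adj a b then 1 else 0 := by
    intro b
    rw [Finset.sum_boole]
    simp only [Nat.cast_id]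
    congr 1
    ext a
    simp [mem_nb, G.adj_comm]
  simp_rw [h1, h2]
  exact Finset.sum_comm

open Classical in
/-- The vertices with many neighbours of large degree. -/
noncomputable def good {n : ℕ} (G : SimpleGraph (Fin n)) (ε : ℝ) : Finset (Fin n) :=
  Finset.univ.filter (fun a => ε * n / 2 ≤ ((hb G ε a).card : ℝ))

lemma mem_good {n : ℕ} {G : SimpleGraph (Fin n)} {ε : ℝ} {v : Fin n} :
    v ∈ good G ε ↔ ε * n / 2 ≤ ((hb G ε v).card : ℝ) := by
  simp [good]

lemma card_good {n : ℕ} {G : SimpleGraph (Fin n)} {ε : ℝ} (hε : 0 < ε) (hn0 : 0 < n)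
    (he : ε * (n : ℝ) ^ 2 ≤ (G.edgeSet.ncard : ℝ)) :
    ε * n ≤ ((good G ε).card : ℝ) := by
  classical
  have h0 := sum_hi hε he
  have h1 : ∑ a, ((hb G ε a).card : ℝ) = ∑ b ∈ hi G ε, ((nb G b).card : ℝ) := by
    exact_mod_cast sum_card_hb G ε
  have h2 : ∑ v, ((hb G ε v).card : ℝ) =
      ∑ v ∈ good G ε, ((hb G ε v).card : ℝ) + ∑ v ∈ (good G ε)ᶜ, ((hb G ε v).card : ℝ) :=
    (Finset.sum_add_sum_compl _ _).symm
  have h3 : ∑ v ∈ (good G ε)ᶜ, ((hb G ε v).card : ℝ) ≤ n * (ε * n / 2) := by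
    calc ∑ v ∈ (good G ε)ᶜ, ((hb G ε v).card : ℝ) ≤ ∑ v ∈ (good G ε)ᶜ, (ε * n / 2) := by
          refine Finset.sum_le_sum fun v hv => ?_
          rw [Finset.mem_compl, mem_good, not_le] at hv
          exact hv.le
      _ = ((good G ε)ᶜ.card : ℝ) * (ε * n / 2) := by rw [Finset.sum_const, nsmul_eq_mul]
      _ ≤ n * (ε * n / 2) := by
          refine mul_le_mul_of_nonneg_right ?_ (by positivity)
          have : (good G ε)ᶜ.card ≤ n := by simpa using Finset.card_le_univ (good G ε)ᶜ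
          exact_mod_cast this
  have h4 : ∑ v ∈ good G ε, ((hb G ε v).card : ℝ) ≤ ((good G ε).card : ℝ) * n := by
    calc ∑ v ∈ good G ε, ((hb G ε v).card : ℝ) ≤ ∑ v ∈ good G ε, (n : ℝ) := by
          refine Finset.sum_le_sum fun v _ => ?_
          have : (hb G ε v).card ≤ n := by simpa using Finset.card_le_univ (hb G ε v)
          exact_mod_cast this
      _ = ((good G ε).card : ℝ) * n := by rw [Finset.sum_const, nsmul_eq_mul]
  have hn : (0 : ℝ) < n := by exact_mod_cast hn0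
  have h5 : ε * n * n ≤ ((good G ε).card : ℝ) * n := by nlinarith
  exact le_of_mul_le_mul_right h5 hn

/-- Colours at a vertex leading to vertices of large degree. -/
noncomputable def cs {n : ℕ} (G : SimpleGraph (Fin n)) (col : Fin n → Fin n → Fin n) (ε : ℝ)
    (a : Fin n) : Finset (Fin n) :=
  (hb G ε a).image (col a)

lemma card_cs {n : ℕ} {G : SimpleGraph (Fin n)} {col : Fin n → Fin n → Fin n}
    (h : C4RainbowColoring G col) {ε : ℝ} (hε : 0 < ε) (hn : 4 ≤ ε * n) (a : Fin n)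
    (ha : a ∈ good G ε) :
    ε ^ 2 / 8 * n ≤ ((cs G col ε a).card : ℝ) := by
  classical
  have h1 : (hb G ε a).card ≤ ⌊4 / ε⌋₊ * (cs G col ε a).card := by
    refine Finset.card_le_mul_card_image _ _ fun c _ => ?_
    apply Nat.le_floor
    rw [le_div_iff₀ hε]
    refine mult h hn a c _ ?_ ?_ ?_
    · intro b hb1
      exact (Finset.mem_inter.1 (Finset.mem_filter.1 hb1).1).1
    · intro b hb1
      exact (Finset.mem_inter.1 (Finset.mem_filter.1 hb1).1).2
    · intro b hb1
      exact (Finset.mem_filter.1 hb1).2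
  have h2 : ((hb G ε a).card : ℝ) ≤ 4 / ε * (cs G col ε a).card := by
    calc ((hb G ε a).card : ℝ) ≤ ((⌊4 / ε⌋₊ * (cs G col ε a).card : ℕ) : ℝ) := by exact_mod_cast h1
      _ = (⌊4 / ε⌋₊ : ℝ) * (cs G col ε a).card := by push_cast; ring
      _ ≤ 4 / ε * (cs G col ε a).card :=
          mul_le_mul_of_nonneg_right (Nat.floor_le (by positivity)) (by positivity)
  have h3 := mem_good.1 ha
  have h4 : ε * n / 2 ≤ 4 / ε * (cs G col ε a).card := h3.trans h2
  have h5 : ε * (ε * n / 2) ≤ ε * (4 / ε * (cs G col ε a).card) :=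
    mul_le_mul_of_nonneg_left h4 hε.le
  have h6 : ε * (4 / ε * (cs G col ε a).card) = 4 * (cs G col ε a).card := by
    field_simp
  rw [h6] at h5
  nlinarith

/-- Common colours are bounded by the symmetric difference of the neighbourhoods. -/
lemma card_cs_inter {n : ℕ} {G : SimpleGraph (Fin n)} {col : Fin n → Fin n → Fin n}
    (h : C4RainbowColoring G col) (ε : ℝ) {a a' : Fin n} (haa : a ≠ a') :
    (cs G col ε a ∩ cs G col ε a').card ≤ (symmDiff (nb G a) (nb G a')).card + 1 := by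
  classical
  have hsd : (symmDiff (nb G a) (nb G a')).card =
      (nb G a \ nb G a').card + (nb G a' \ nb G a).card := by
    rw [symmDiff_def, Finset.sup_eq_union]
    exact Finset.card_union_of_disjoint disjoint_sdiff_sdiff
  rw [hsd]
  by_cases h1 : (nb G a ∩ nb G a').card ≤ 1
  · have h2 : cs G col ε a ∩ cs G col ε a' ⊆
        (nb G a \ nb G a').image (col a) ∪ (nb G a ∩ nb G a').image (col a) := by
      intro c hc
      rw [Finset.mem_inter, cs, Finset.mem_image] at hc
      obtain ⟨⟨b, hb1, hb2⟩, -⟩ := hc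
      have hb3 : b ∈ nb G a := (Finset.mem_inter.1 hb1).1
      rw [Finset.mem_union, Finset.mem_image, Finset.mem_image]
      by_cases h3 : b ∈ nb G a'
      · exact Or.inr ⟨b, Finset.mem_inter.2 ⟨hb3, h3⟩, hb2⟩
      · exact Or.inl ⟨b, Finset.mem_sdiff.2 ⟨hb3, h3⟩, hb2⟩
    calc _ ≤ _ := Finset.card_le_card h2
      _ ≤ _ := Finset.card_union_le _ _
      _ ≤ (nb G a \ nb G a').card + (nb G a ∩ nb G a').card :=
          add_le_add Finset.card_image_le Finset.card_image_le
      _ ≤ _ := by omega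
  · rw [not_le] at h1
    have h2 : cs G col ε a ∩ cs G col ε a' ⊆
        ((nb G a \ nb G a').image (col a) ∪ (nb G a' \ nb G a).image (col a')) ∪ {col a a'} := by
      intro c hc
      by_contra hcon
      simp only [Finset.mem_union, Finset.mem_image, Finset.mem_singleton, not_or, not_exists,
        not_and, Finset.mem_sdiff] at hcon
      obtain ⟨⟨hc1, hc2⟩, hc3⟩ := hcon
      rw [Finset.mem_inter, cs, cs, Finset.mem_image, Finset.mem_image] at hc
      obtain ⟨⟨b, hb1, hb2⟩, ⟨b', hb1', hb2'⟩⟩ := hc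
      have hab : b ∈ nb G a := (Finset.mem_inter.1 hb1).1
      have hab' : b' ∈ nb G a' := (Finset.mem_inter.1 hb1').1
      have hba' : b ∈ nb G a' := by
        by_contra h3
        exact hc1 b ⟨hab, h3⟩ hb2
      have hb'a : b' ∈ nb G a := by
        by_contra h3
        exact hc2 b' ⟨hab', h3⟩ hb2'
      rw [mem_nb] at hab hab' hba' hb'a
      have hbne : b ≠ a' := hba'.ne'
      have hb'ne : b' ≠ a := hb'a.ne'
      by_cases hbb : b = b'
      · subst hbb
        obtain ⟨x, hx, hxb⟩ := Finset.exists_mem_ne h1 b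
        rw [Finset.mem_inter, mem_nb, mem_nb] at hx
        have h4 : IsC4 G a b a' x :=
          ⟨⟨hab.ne, haa, hx.1.ne, hbne, hxb.symm, hx.2.ne⟩, hab, hab'.symm, hx.2, hx.1.symm⟩
        have h5 := (h.2 a b a' x h4).1
        apply h5
        rw [hb2, ← hb2', h.1 a' b hab']
      · have h4 : IsC4 G a b a' b' :=
          ⟨⟨hab.ne, haa, hb'a.ne, hbne, hbb, hab'.ne⟩, hab, hba'.symm, hab', hb'a.symm⟩
        have h5 := (h.2 a b a' b' h4).2.1
        apply h5
        rw [hb2, hb2']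
    calc _ ≤ _ := Finset.card_le_card h2
      _ ≤ _ := Finset.card_union_le _ _
      _ ≤ ((nb G a \ nb G a').card + (nb G a' \ nb G a).card) + 1 := by
          refine add_le_add ?_ (by simp)
          exact (Finset.card_union_le _ _).trans (add_le_add Finset.card_image_le Finset.card_image_le)

end Pool.Agent.Helper14.RC4
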