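import Pool.Agent.Helper14.RC4.Basic

/-!
The adjacency matrix has rank at least of order the square root of n over every field.
-/

set_option autoImplicit false

open Finset N2633a9ba

namespace Pool.Agent.Helper14.RC4

/-- Rank factorisation. -/
lemma exists_factor {F ι : Type*} [Field F] [Fintype ι] [DecidableEq ι] (T : Matrix ι ι F) :
    ∃ (U : Matrix ι (Fin T.rank) F) (V : Matrix (Fin T.rank) ι F),
      ∀ i j, T i j = ∑ k, U i k * V k j := by
  classical
  have hr : Module.finrank F (LinearMap.range T.mulVecLin) = T.rank := rfl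
  let b := Module.finBasisOfFinrankEq F (LinearMap.range T.mulVecLin) hr
  refine ⟨fun i k => (b k : ι → F) i,
    fun k j => b.repr ⟨T.mulVecLin (Pi.single j 1), LinearMap.mem_range_self _ _⟩ k, ?_⟩
  intro i j
  have h1 := b.sum_repr ⟨T.mulVecLin (Pi.single j 1), LinearMap.mem_range_self _ _⟩
  have h2 := congrArg (fun x : LinearMap.range T.mulVecLin => (x : ι → F) i) h1
  simp only [Submodule.coe_sum, Submodule.coe_smul, Finset.sum_apply, Pi.smul_apply,
    smul_eq_mul] at h2
  have h3 : T.mulVecLin (Pi.single j 1) i = T i j := by simp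
  rw [← h3, ← h2]
  exact Finset.sum_congr rfl fun k _ => mul_comm _ _

/-- A matrix T with unit diagonal and T i j * T j i = 0 off the diagonal has large rank. -/
lemma card_le_rank_sq {F ι : Type*} [Field F] [Fintype ι] [DecidableEq ι] (T : Matrix ι ι F)
    (h1 : ∀ i, T i i = 1) (h2 : ∀ i j, i ≠ j → T i j * T j i = 0) :
    Fintype.card ι ≤ T.rank ^ 2 := by
  classical
  obtain ⟨U, V, hUV⟩ := exists_factor T
  set P : Matrix ι (Fin T.rank × Fin T.rank) F := fun i p => U i p.1 * V p.2 i with hP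
  set Q : Matrix (Fin T.rank × Fin T.rank) ι F := fun p j => V p.1 j * U j p.2 with hQ
  have hPQ : P * Q = 1 := by
    ext i j
    rw [Matrix.mul_apply, Fintype.sum_prod_type]
    have h3 : ∑ x, ∑ y, P i (x, y) * Q (x, y) j = T i j * T j i := by
      rw [hUV i j, hUV j i, Finset.sum_mul_sum]
      refine Finset.sum_congr rfl fun x _ => Finset.sum_congr rfl fun y _ => ?_
      simp only [hP, hQ]
      ring
    rw [h3]
    by_cases hij : i = j
    · subst hij
      rw [h1, one_mul, Matrix.one_apply_eq]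
    · rw [h2 i j hij, Matrix.one_apply_ne hij]
  calc Fintype.card ι = (1 : Matrix ι ι F).rank := Matrix.rank_one.symm
    _ = (P * Q).rank := by rw [hPQ]
    _ ≤ P.rank := Matrix.rank_mul_le_left _ _
    _ ≤ Fintype.card (Fin T.rank × Fin T.rank) := Matrix.rank_le_card_width _
    _ = T.rank ^ 2 := by simp [sq]

open Classical in
/-- Ordered adjacent pairs of high degree vertices of colour c. -/
noncomputable def prs {n : ℕ} (G : SimpleGraph (Fin n)) (col : Fin n → Fin n → Fin n) (ε : ℝ)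
    (c : Fin n) : Finset (Fin n × Fin n) :=
  Finset.univ.filter (fun p => G.Adj p.1 p.2 ∧ p.1 ∈ hi G ε ∧ p.2 ∈ hi G ε ∧ col p.1 p.2 = c)

lemma mem_prs {n : ℕ} {G : SimpleGraph (Fin n)} {col : Fin n → Fin n → Fin n} {ε : ℝ}
    {c : Fin n} {p : Fin n × Fin n} :
    p ∈ prs G col ε c ↔ G.Adj p.1 p.2 ∧ p.1 ∈ hi G ε ∧ p.2 ∈ hi G ε ∧ col p.1 p.2 = c := by
  simp [prs]

lemma exists_colour {n : ℕ} {G : SimpleGraph (Fin n)} (col : Fin n → Fin n → Fin n) {ε : ℝ}
    (hε : 0 < ε) (hn0 : 0 < n) (he : ε * (n : ℝ) ^ 2 ≤ (G.edgeSet.ncard : ℝ)) :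
    ∃ c, ε * n ≤ ((prs G col ε c).card : ℝ) := by
  classical
  by_contra hcon
  push Not at hcon
  have hnr : (0 : ℝ) < n := by exact_mod_cast hn0
  -- total number of good ordered pairs
  have h1 : ∑ c, ((prs G col ε c).card : ℝ) = ∑ a ∈ hi G ε, ((hb G ε a).card : ℝ) := by
    have h2 : ∀ c, ((prs G col ε c).card : ℝ) =
        ∑ a ∈ hi G ε, ∑ b ∈ hb G ε a, if col a b = c then (1 : ℝ) else 0 := by
      intro c
      have h3 : prs G col ε c = ((hi G ε).sigma (fun a => (hb G ε a).filter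
          (fun b => col a b = c))).map ⟨fun x => (x.1, x.2), by
            rintro ⟨a, b⟩ ⟨a', b'⟩ hab
            simp only [Prod.mk.injEq] at hab
            obtain ⟨rfl, rfl⟩ := hab
            rfl⟩ := by
        ext ⟨a, b⟩
        simp only [mem_prs, Finset.mem_map, Finset.mem_sigma, Finset.mem_filter,
          Sigma.exists, hb, Finset.mem_inter, mem_nb]
        constructor
        · rintro ⟨h4, h5, h6, h7⟩
          exact ⟨a, b, ⟨h5, ⟨h4, h6⟩, h7⟩, rfl⟩
        · rintro ⟨a', b', ⟨h5, ⟨h4, h6⟩, h7⟩, h8⟩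
          cases h8
          exact ⟨h4, h5, h6, h7⟩
      rw [h3, Finset.card_map, Finset.card_sigma]
      push_cast
      refine Finset.sum_congr rfl fun a _ => ?_
      rw [Finset.sum_boole]
    simp_rw [h2]
    rw [Finset.sum_comm]
    refine Finset.sum_congr rfl fun a _ => ?_
    rw [Finset.sum_comm]
    have : ∀ b ∈ hb G ε a, ∑ c, (if col a b = c then (1 : ℝ) else 0) = 1 := by
      intro b _
      simp
    rw [Finset.sum_congr rfl this]
    simp
  have h2 : ∑ c, ((prs G col ε c).card : ℝ) < n * (ε * n) := by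
    calc ∑ c, ((prs G col ε c).card : ℝ) < ∑ c : Fin n, (ε * n) := by
          have : Nonempty (Fin n) := ⟨⟨0, hn0⟩⟩
          exact Finset.sum_lt_sum_of_nonempty Finset.univ_nonempty fun c _ => hcon c
      _ = n * (ε * n) := by rw [Finset.sum_const, nsmul_eq_mul]; simp
  have h3 := sum_hi hε he
  have h4 : ∑ a, ((hb G ε a).card : ℝ) = ∑ b ∈ hi G ε, ((nb G b).card : ℝ) := by
    exact_mod_cast sum_card_hb G ε
  have h5 : ∑ v, ((hb G ε v).card : ℝ) =
      ∑ v ∈ hi G ε, ((hb G ε v).card : ℝ) + ∑ v ∈ (hi G ε)ᶜ, ((hb G ε v).card : ℝ) :=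
    (Finset.sum_add_sum_compl _ _).symm
  have h6 : ∑ v ∈ (hi G ε)ᶜ, ((hb G ε v).card : ℝ) ≤ n * (ε * n / 2) := by
    calc ∑ v ∈ (hi G ε)ᶜ, ((hb G ε v).card : ℝ) ≤ ∑ v ∈ (hi G ε)ᶜ, (ε * n / 2) := by
          refine Finset.sum_le_sum fun v hv => ?_
          rw [Finset.mem_compl, mem_hi, not_le] at hv
          have : ((hb G ε v).card : ℝ) ≤ ((nb G v).card : ℝ) := by
            exact_mod_cast Finset.card_le_card Finset.inter_subset_left
          linarith
      _ = ((hi G ε)ᶜ.card : ℝ) * (ε * n / 2) := by rw [Finset.sum_const, nsmul_eq_mul]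
      _ ≤ n * (ε * n / 2) := by
          refine mul_le_mul_of_nonneg_right ?_ (by positivity)
          have : (hi G ε)ᶜ.card ≤ n := by simpa using Finset.card_le_univ (hi G ε)ᶜ
          exact_mod_cast this
  rw [h1] at h2
  nlinarith

/-- A large monochromatic matching. -/
lemma exists_matching {n : ℕ} {G : SimpleGraph (Fin n)} {col : Fin n → Fin n → Fin n}
    (h : C4RainbowColoring G col) {ε : ℝ} (hε : 0 < ε) (hn : 4 ≤ ε * n)
    (he : ε * (n : ℝ) ^ 2 ≤ (G.edgeSet.ncard : ℝ)) :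
    ∃ (c : Fin n) (M : Finset (Fin n × Fin n)), M ⊆ prs G col ε c ∧
      (∀ p ∈ M, ∀ q ∈ M, p ≠ q → p.1 ≠ q.1 ∧ p.2 ≠ q.2) ∧ ε ^ 2 / 8 * n ≤ (M.card : ℝ) := by
  classical
  have hn0 : 0 < n := by
    rcases Nat.eq_zero_or_pos n with h0 | h0
    · subst h0; simp at hn; linarith
    · exact h0
  have hnr : (0 : ℝ) < n := by exact_mod_cast hn0
  obtain ⟨c, hc⟩ := exists_colour col hε hn0 he
  obtain ⟨M, hM, hMmax⟩ := Finset.exists_max_image
    ((prs G col ε c).powerset.filter (fun M => ∀ p ∈ M, ∀ q ∈ M, p ≠ q → p.1 ≠ q.1 ∧ p.2 ≠ q.2))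
    Finset.card ⟨∅, by simp⟩
  rw [Finset.mem_filter, Finset.mem_powerset] at hM
  refine ⟨c, M, hM.1, hM.2, ?_⟩
  have hcov : ∀ p ∈ prs G col ε c, ∃ q ∈ M, q.1 = p.1 ∨ q.2 = p.2 := by
    intro p hp
    by_contra hcon
    push Not at hcon
    have hpM : p ∉ M := fun h3 => (hcon p h3).1 rfl
    have h4 : insert p M ∈ (prs G col ε c).powerset.filter
        (fun M => ∀ p ∈ M, ∀ q ∈ M, p ≠ q → p.1 ≠ q.1 ∧ p.2 ≠ q.2) := by
      rw [Finset.mem_filter, Finset.mem_powerset]
      refine ⟨Finset.insert_subset hp hM.1, ?_⟩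
      intro x hx y hy hxy
      rw [Finset.mem_insert] at hx hy
      rcases hx with rfl | hx
      · rcases hy with rfl | hy
        · exact absurd rfl hxy
        · exact ⟨(hcon y hy).1.symm, (hcon y hy).2.symm⟩
      · rcases hy with rfl | hy
        · exact hcon x hx
        · exact hM.2 x hx y hy hxy
    have h5 := hMmax _ h4
    rw [Finset.card_insert_of_notMem hpM] at h5
    omega
  have hcover : prs G col ε c ⊆ M.biUnion (fun q =>
      (prs G col ε c).filter (fun p => p.1 = q.1) ∪ (prs G col ε c).filter (fun p => p.2 = q.2)) := by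
    intro p hp
    obtain ⟨q, hq, h3⟩ := hcov p hp
    rw [Finset.mem_biUnion]
    refine ⟨q, hq, ?_⟩
    rw [Finset.mem_union, Finset.mem_filter, Finset.mem_filter]
    rcases h3 with h3 | h3
    · exact Or.inl ⟨hp, h3.symm⟩
    · exact Or.inr ⟨hp, h3.symm⟩
  have hrow : ∀ a : Fin n, (((prs G col ε c).filter (fun p => p.1 = a)).card : ℝ) * ε ≤ 4 := by
    intro a
    have h3 : ((prs G col ε c).filter (fun p => p.1 = a)).card =
        (((prs G col ε c).filter (fun p => p.1 = a)).image Prod.snd).card := by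
      symm
      apply Finset.card_image_of_injOn
      intro p hp q hq hpq
      have hp' := (Finset.mem_filter.1 (Finset.mem_coe.1 hp)).2
      have hq' := (Finset.mem_filter.1 (Finset.mem_coe.1 hq)).2
      exact Prod.ext (hp'.trans hq'.symm) hpq
    rw [h3]
    refine mult h hn a c _ ?_ ?_ ?_
    · intro b hb1
      rw [Finset.mem_image] at hb1
      obtain ⟨p, hp, rfl⟩ := hb1
      rw [Finset.mem_filter, mem_prs] at hp
      rw [mem_nb, ← hp.2]
      exact hp.1.1
    · intro b hb1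
      rw [Finset.mem_image] at hb1
      obtain ⟨p, hp, rfl⟩ := hb1
      rw [Finset.mem_filter, mem_prs] at hp
      exact hp.1.2.2.1
    · intro b hb1
      rw [Finset.mem_image] at hb1
      obtain ⟨p, hp, rfl⟩ := hb1
      rw [Finset.mem_filter, mem_prs] at hp
      rw [← hp.2]
      exact hp.1.2.2.2
  have hcolm : ∀ b : Fin n, (((prs G col ε c).filter (fun p => p.2 = b)).card : ℝ) * ε ≤ 4 := by
    intro b
    have h3 : ((prs G col ε c).filter (fun p => p.2 = b)).card =
        (((prs G col ε c).filter (fun p => p.2 = b)).image Prod.fst).card := by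
      symm
      apply Finset.card_image_of_injOn
      intro p hp q hq hpq
      have hp' := (Finset.mem_filter.1 (Finset.mem_coe.1 hp)).2
      have hq' := (Finset.mem_filter.1 (Finset.mem_coe.1 hq)).2
      exact Prod.ext hpq (hp'.trans hq'.symm)
    rw [h3]
    refine mult h hn b c _ ?_ ?_ ?_
    · intro a ha1
      rw [Finset.mem_image] at ha1
      obtain ⟨p, hp, rfl⟩ := ha1
      rw [Finset.mem_filter, mem_prs] at hp
      rw [mem_nb, ← hp.2]
      exact hp.1.1.symm
    · intro a ha1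
      rw [Finset.mem_image] at ha1
      obtain ⟨p, hp, rfl⟩ := ha1
      rw [Finset.mem_filter, mem_prs] at hp
      exact hp.1.2.1
    · intro a ha1
      rw [Finset.mem_image] at ha1
      obtain ⟨p, hp, rfl⟩ := ha1
      rw [Finset.mem_filter, mem_prs] at hp
      rw [← hp.2, ← h.1 _ _ hp.1.1]
      exact hp.1.2.2.2
  have h3 : ((prs G col ε c).card : ℝ) ≤ ∑ q ∈ M, (((prs G col ε c).filter (fun p => p.1 = q.1) ∪
      (prs G col ε c).filter (fun p => p.2 = q.2)).card : ℝ) := by
    have := (Finset.card_le_card hcover).trans Finset.card_biUnion_le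
    exact_mod_cast this
  have h4 : ∀ q ∈ M, (((prs G col ε c).filter (fun p => p.1 = q.1) ∪
      (prs G col ε c).filter (fun p => p.2 = q.2)).card : ℝ) * ε ≤ 8 := by
    intro q _
    have h5 : (((prs G col ε c).filter (fun p => p.1 = q.1) ∪
      (prs G col ε c).filter (fun p => p.2 = q.2)).card : ℝ) ≤
      (((prs G col ε c).filter (fun p => p.1 = q.1)).card : ℝ) +
      (((prs G col ε c).filter (fun p => p.2 = q.2)).card : ℝ) := by
      exact_mod_cast Finset.card_union_le _ _
    have h6 := hrow q.1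
    have h7 := hcolm q.2
    nlinarith
  have h5 : ((prs G col ε c).card : ℝ) * ε ≤ (M.card : ℝ) * 8 := by
    calc ((prs G col ε c).card : ℝ) * ε ≤ (∑ q ∈ M, (((prs G col ε c).filter (fun p => p.1 = q.1) ∪
      (prs G col ε c).filter (fun p => p.2 = q.2)).card : ℝ)) * ε :=
          mul_le_mul_of_nonneg_right h3 hε.le
      _ = ∑ q ∈ M, (((prs G col ε c).filter (fun p => p.1 = q.1) ∪
      (prs G col ε c).filter (fun p => p.2 = q.2)).card : ℝ) * ε := Finset.sum_mul _ _ _
      _ ≤ ∑ q ∈ M, (8 : ℝ) := Finset.sum_le_sum h4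
      _ = (M.card : ℝ) * 8 := by rw [Finset.sum_const, nsmul_eq_mul]
  nlinarith

/-- The rank bound. -/
theorem rank_bound {n : ℕ} {G : SimpleGraph (Fin n)} [DecidableRel G.Adj]
    {col : Fin n → Fin n → Fin n}
    (h : C4RainbowColoring G col) {ε : ℝ} (hε : 0 < ε) (hn : 4 ≤ ε * n)
    (he : ε * (n : ℝ) ^ 2 ≤ (G.edgeSet.ncard : ℝ)) (F : Type*) [Field F] :
    ε ^ 2 / 8 * n ≤ ((G.adjMatrix F).rank : ℝ) ^ 2 := by
  classical
  obtain ⟨c, M, hM1, hM2, hM3⟩ := exists_matching h hε hn he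
  refine hM3.trans ?_
  set T : Matrix M M F := (G.adjMatrix F).submatrix (fun p => p.1.1) (fun p => p.1.2) with hT
  have h1 : ∀ p, T p p = 1 := by
    intro p
    have hp := mem_prs.1 (hM1 p.2)
    rw [hT, Matrix.submatrix_apply, SimpleGraph.adjMatrix_apply, if_pos hp.1]
  have h2 : ∀ p q, p ≠ q → T p q * T q p = 0 := by
    intro p q hpq
    have hp := mem_prs.1 (hM1 p.2)
    have hq := mem_prs.1 (hM1 q.2)
    rw [hT, Matrix.submatrix_apply, Matrix.submatrix_apply, SimpleGraph.adjMatrix_apply,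
      SimpleGraph.adjMatrix_apply]
    by_cases h3 : G.Adj p.1.1 q.1.2
    · by_cases h4 : G.Adj q.1.1 p.1.2
      · exfalso
        have h5 := hM2 p.1 p.2 q.1 q.2 (fun h6 => hpq (Subtype.ext h6))
        have h6 : IsC4 G p.1.1 p.1.2 q.1.1 q.1.2 :=
          ⟨⟨hp.1.ne, h5.1, h3.ne, h4.ne', h5.2, hq.1.ne⟩, hp.1, h4.symm, hq.1, h3.symm⟩
        have h7 := (h.2 _ _ _ _ h6).2.1
        apply h7
        rw [hp.2.2.2, hq.2.2.2]
      · rw [if_neg h4, mul_zero]
    · rw [if_neg h3, zero_mul]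
  have h3 := card_le_rank_sq T h1 h2
  have h4 : T.rank ≤ (G.adjMatrix F).rank := Matrix.rank_submatrix_le _ _ _
  have h5 : M.card ≤ (G.adjMatrix F).rank ^ 2 := by
    rw [Fintype.card_coe] at h3
    exact h3.trans (Nat.pow_le_pow_left h4 2)
  exact_mod_cast h5

end Pool.Agent.Helper14.RC4
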