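import Pool.Agent.Helper14.RC4.VC
import Pool.Agent.Helper14.RC4.Rank

/-!
The three conclusions, with constants depending on `ε` only.
-/

set_option autoImplicit false

open N2633a9ba

namespace Pool.Agent.Helper14.RC4

lemma thresholds {ε : ℝ} (hε : 0 < ε) {n : ℕ}
    (hn : max (⌈4 / ε⌉₊) (⌈8 / (ε ^ 2 / 8) ^ 2⌉₊) ≤ n) :
    4 ≤ ε * n ∧ 8 ≤ (ε ^ 2 / 8) ^ 2 * n := by
  constructor
  · have h1 : ⌈4 / ε⌉₊ ≤ n := (le_max_left _ _).trans hn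
    have h2 : 4 / ε ≤ n := (Nat.le_ceil _).trans (by exact_mod_cast h1)
    rw [div_le_iff₀ hε] at h2
    linarith
  · have h1 : ⌈8 / (ε ^ 2 / 8) ^ 2⌉₊ ≤ n := (le_max_right _ _).trans hn
    have h2 : 8 / (ε ^ 2 / 8) ^ 2 ≤ n := (Nat.le_ceil _).trans (by exact_mod_cast h1)
    rw [div_le_iff₀ (by positivity)] at h2
    linarith

theorem far {ε : ℝ} (hε : 0 < ε) :
    ∃ c : ℝ, 0 < c ∧ c ≤ 1 ∧ ∃ n₀ : ℕ, ∀ n ≥ n₀, ∀ (G : SimpleGraph (Fin n))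
      (color : Fin n → Fin n → Fin n),
      ε * (n : ℝ) ^ 2 ≤ (G.edgeSet.ncard : ℝ) → C4RainbowColoring G color →
        ∃ Z : Finset (Fin n), c * n ≤ (Z.card : ℝ) ∧ ∀ a ∈ Z, ∀ b ∈ Z, a ≠ b →
          c * n ≤ ((symmDiff (nb G a) (nb G b)).card : ℝ) := by
  refine ⟨min (min (ε ^ 3 / 16) ((ε ^ 2 / 8) ^ 2 / 16)) 1, by positivity, min_le_right _ _,
    max (⌈4 / ε⌉₊) (⌈8 / (ε ^ 2 / 8) ^ 2⌉₊), ?_⟩
  intro n hn G color he hcol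
  obtain ⟨h4, h8⟩ := thresholds hε hn
  have hn0 : (0 : ℝ) ≤ n := Nat.cast_nonneg n
  obtain ⟨Z, hZ1, hZ2⟩ := separated hcol hε h4 h8 he
  refine ⟨Z, ?_, ?_⟩
  · exact (mul_le_mul_of_nonneg_right ((min_le_left _ _).trans (min_le_left _ _)) hn0).trans hZ1
  · intro a ha b hb hab
    exact (mul_le_mul_of_nonneg_right ((min_le_left _ _).trans (min_le_right _ _)) hn0).trans
      (hZ2 a ha b hb hab)

theorem far_nbhd {ε : ℝ} (hε : 0 < ε) :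
    ∃ c : ℝ, 0 < c ∧ ∃ n₀ : ℕ, ∀ n ≥ n₀, ∀ (G : SimpleGraph (Fin n))
      (color : Fin n → Fin n → Fin n),
      ε * (n : ℝ) ^ 2 ≤ (G.edgeSet.ncard : ℝ) → C4RainbowColoring G color →
        ∃ Z : Finset (Fin n), c * n ≤ (Z.card : ℝ) ∧ ∀ a ∈ Z, ∀ b ∈ Z, a ≠ b →
          c * n ≤ ((symmDiff (G.neighborSet a) (G.neighborSet b)).ncard : ℝ) := by
  obtain ⟨c, hc0, -, n₀, h⟩ := far hε
  refine ⟨c, hc0, n₀, fun n hn G color he hcol => ?_⟩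
  obtain ⟨Z, hZ1, hZ2⟩ := h n hn G color he hcol
  refine ⟨Z, hZ1, fun a ha b hb hab => ?_⟩
  have h2 : (symmDiff (G.neighborSet a) (G.neighborSet b)).ncard =
      (symmDiff (nb G a) (nb G b)).card := by
    rw [← Set.ncard_coe_finset, Finset.coe_symmDiff, coe_nb, coe_nb]
  rw [h2]
  exact hZ2 a ha b hb hab

theorem shattered {ε : ℝ} (hε : 0 < ε) :
    ∃ c : ℝ, 0 < c ∧ ∃ n₀ : ℕ, ∀ n ≥ n₀, ∀ (G : SimpleGraph (Fin n))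
      (color : Fin n → Fin n → Fin n),
      ε * (n : ℝ) ^ 2 ≤ (G.edgeSet.ncard : ℝ) → C4RainbowColoring G color →
        ∃ X : Finset (Fin n), c * Real.log n ≤ (X.card : ℝ) ∧
          ∀ Y ⊆ X, ∃ v, ∀ x ∈ X, G.Adj v x ↔ x ∈ Y := by
  obtain ⟨c, hc0, hc1, n₀, h⟩ := far hε
  obtain ⟨κ, hκ0, n₁, hn₁⟩ := vc_log hc0 hc1
  refine ⟨κ, hκ0, max n₀ n₁, fun n hn G color he hcol => ?_⟩
  obtain ⟨Z, hZ1, hZ2⟩ := h n ((le_max_left _ _).trans hn) G color he hcol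
  exact hn₁ n ((le_max_right _ _).trans hn) G Z hZ1 hZ2

theorem rank_sqrt {ε : ℝ} (hε : 0 < ε) :
    ∃ c : ℝ, 0 < c ∧ ∃ n₀ : ℕ, ∀ n ≥ n₀, ∀ (G : SimpleGraph (Fin n)) [DecidableRel G.Adj]
      (color : Fin n → Fin n → Fin n),
      ε * (n : ℝ) ^ 2 ≤ (G.edgeSet.ncard : ℝ) → C4RainbowColoring G color →
        ∀ (F : Type) [Field F], c * Real.sqrt n ≤ ((G.adjMatrix F).rank : ℝ) := by
  refine ⟨ε / 3, by positivity, max (⌈4 / ε⌉₊) (⌈8 / (ε ^ 2 / 8) ^ 2⌉₊), ?_⟩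
  intro n hn G _ color he hcol F _
  obtain ⟨h4, -⟩ := thresholds hε hn
  have hn0 : (0 : ℝ) ≤ n := Nat.cast_nonneg n
  have h1 := rank_bound hcol hε h4 he F
  have h3 : (ε / 3 * Real.sqrt n) ^ 2 ≤ ((G.adjMatrix F).rank : ℝ) ^ 2 := by
    refine le_trans ?_ h1
    rw [mul_pow, Real.sq_sqrt hn0]
    refine mul_le_mul_of_nonneg_right ?_ hn0
    nlinarith [sq_nonneg ε]
  exact le_of_sq_le_sq h3 (by positivity)

end Pool.Agent.Helper14.RC4
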