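import Pool.Agent.Helper14.RC4.Basic

/-!
Many vertices have pairwise far apart neighbourhoods.
-/

set_option autoImplicit false

open Finset N2633a9ba

namespace Pool.Agent.Helper14.RC4

/-- Few large sets with small pairwise intersections. -/
lemma packing {n : ℕ} (hn : 0 < n) (C : Fin n → Finset (Fin n)) (S : Finset (Fin n)) {γ : ℝ}
    (hγ : 0 < γ) (h1 : ∀ a ∈ S, γ * n ≤ ((C a).card : ℝ))
    (h2 : ∀ a ∈ S, ∀ b ∈ S, a ≠ b → ((C a ∩ C b).card : ℝ) ≤ γ ^ 2 / 4 * n) :
    (S.card : ℝ) * γ ≤ 2 := by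
  classical
  by_contra hcon
  rw [not_le] at hcon
  set d : Fin n → ℝ := fun x => ∑ a ∈ S, if x ∈ C a then (1 : ℝ) else 0 with hd
  have hsum : ∑ x, d x = ∑ a ∈ S, ((C a).card : ℝ) := by
    simp only [hd]
    rw [Finset.sum_comm]
    refine Finset.sum_congr rfl fun a _ => ?_
    rw [Finset.sum_boole]
    congr 2
    ext x; simp
  have hsq : ∑ x, d x ^ 2 = ∑ a ∈ S, ∑ b ∈ S, ((C a ∩ C b).card : ℝ) := by
    simp only [hd, sq, Finset.sum_mul_sum]
    rw [Finset.sum_comm]
    refine Finset.sum_congr rfl fun a _ => ?_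
    rw [Finset.sum_comm]
    refine Finset.sum_congr rfl fun b _ => ?_
    have : ∀ x, (if x ∈ C a then (1 : ℝ) else 0) * (if x ∈ C b then (1 : ℝ) else 0) =
        if x ∈ C a ∩ C b then 1 else 0 := by
      intro x
      by_cases h3 : x ∈ C a <;> by_cases h4 : x ∈ C b <;> simp [h3, h4]
    simp_rw [this]
    rw [Finset.sum_boole]
    congr 2
    ext x; simp
  have hcs : (∑ x, d x) ^ 2 ≤ n * ∑ x, d x ^ 2 := by
    have := sq_sum_le_card_mul_sum_sq (s := (Finset.univ : Finset (Fin n))) (f := d)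
    simpa using this
  set P : ℝ := ∑ a ∈ S, ((C a).card : ℝ) with hP
  set L : ℝ := (S.card : ℝ) with hL
  have hL0 : 0 ≤ L := by positivity
  have hnr : (0 : ℝ) < n := by exact_mod_cast hn
  have hP1 : L * (γ * n) ≤ P := by
    rw [hL, hP, ← nsmul_eq_mul, ← Finset.sum_const]
    exact Finset.sum_le_sum h1
  have hQ : ∑ x, d x ^ 2 ≤ P + L * (L * (γ ^ 2 / 4 * n)) := by
    rw [hsq]
    have h3 : ∀ a ∈ S, ∑ b ∈ S, ((C a ∩ C b).card : ℝ) ≤ (C a).card + L * (γ ^ 2 / 4 * n) := by
      intro a ha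
      rw [← Finset.add_sum_erase S _ ha, Finset.inter_self]
      refine add_le_add le_rfl ?_
      calc ∑ b ∈ S.erase a, ((C a ∩ C b).card : ℝ) ≤ ∑ b ∈ S.erase a, (γ ^ 2 / 4 * n) := by
            refine Finset.sum_le_sum fun b hb => ?_
            rw [Finset.mem_erase] at hb
            exact h2 a ha b hb.2 hb.1.symm
        _ = ((S.erase a).card : ℝ) * (γ ^ 2 / 4 * n) := by rw [Finset.sum_const, nsmul_eq_mul]
        _ ≤ L * (γ ^ 2 / 4 * n) := by
            refine mul_le_mul_of_nonneg_right ?_ (by positivity)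
            rw [hL]
            exact_mod_cast Finset.card_erase_le
    calc ∑ a ∈ S, ∑ b ∈ S, ((C a ∩ C b).card : ℝ)
        ≤ ∑ a ∈ S, (((C a).card : ℝ) + L * (γ ^ 2 / 4 * n)) := Finset.sum_le_sum h3
      _ = P + L * (L * (γ ^ 2 / 4 * n)) := by
          rw [Finset.sum_add_distrib, Finset.sum_const, nsmul_eq_mul]
  rw [hsum] at hcs
  have hcs2 : P ^ 2 ≤ n * (P + L * (L * (γ ^ 2 / 4 * n))) :=
    hcs.trans (mul_le_mul_of_nonneg_left hQ hnr.le)
  have hP2 : 2 * n ≤ P := by nlinarith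
  have hP3 : (L * (γ * n)) ^ 2 ≤ P ^ 2 := by
    apply pow_le_pow_left₀ (by positivity) hP1
  have h5 : n * P ≤ P ^ 2 / 2 := by nlinarith
  have h6 : P ^ 2 ≤ (L * (γ * n)) ^ 2 / 2 := by nlinarith
  have h7 : 0 < (L * (γ * n)) ^ 2 := by
    have : 0 < L * γ := by linarith
    have : 0 < L * (γ * n) := by
      have := mul_pos this hnr
      linarith [mul_assoc L γ (n : ℝ)]
    positivity
  nlinarith

lemma card_symmDiff_triangle {n : ℕ} (A B C : Finset (Fin n)) :
    (symmDiff A C).card ≤ (symmDiff A B).card + (symmDiff B C).card := by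
  classical
  have h := symmDiff_triangle A B C
  exact (Finset.card_le_card h).trans (Finset.card_union_le _ _)

/-- Many vertices with pairwise far apart neighbourhoods. -/
theorem separated {n : ℕ} {G : SimpleGraph (Fin n)} {col : Fin n → Fin n → Fin n}
    (h : C4RainbowColoring G col) {ε : ℝ} (hε : 0 < ε) (hn : 4 ≤ ε * n)
    (hn2 : 8 ≤ (ε ^ 2 / 8) ^ 2 * n)
    (he : ε * (n : ℝ) ^ 2 ≤ (G.edgeSet.ncard : ℝ)) :
    ∃ Z : Finset (Fin n), ε ^ 3 / 16 * n ≤ (Z.card : ℝ) ∧
      ∀ a ∈ Z, ∀ b ∈ Z, a ≠ b → (ε ^ 2 / 8) ^ 2 / 16 * n ≤ ((symmDiff (nb G a) (nb G b)).card : ℝ) := by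
  classical
  have hn0 : 0 < n := by
    rcases Nat.eq_zero_or_pos n with h0 | h0
    · subst h0; simp at hn; linarith
    · exact h0
  have hnr : (0 : ℝ) < n := by exact_mod_cast hn0
  set γ : ℝ := ε ^ 2 / 8 with hγd
  have hγ : 0 < γ := by positivity
  set δ : ℝ := γ ^ 2 / 16 with hδd
  have hδ : 0 < δ := by positivity
  set Sep : Finset (Fin n) → Prop := fun Z => ∀ a ∈ Z, ∀ b ∈ Z, a ≠ b →
    δ * n ≤ ((symmDiff (nb G a) (nb G b)).card : ℝ) with hSep
  obtain ⟨Z, hZ, hZmax⟩ := Finset.exists_max_image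
    ((good G ε).powerset.filter (fun Z => Sep Z)) Finset.card
    ⟨∅, by simp [hSep]⟩
  rw [Finset.mem_filter, Finset.mem_powerset] at hZ
  refine ⟨Z, ?_, hZ.2⟩
  have hclose : ∀ a ∈ good G ε, ∃ z ∈ Z, ((symmDiff (nb G a) (nb G z)).card : ℝ) < δ * n := by
    intro a ha
    by_contra hcon
    push Not at hcon
    have haZ : a ∉ Z := by
      intro h3
      have := hcon a h3
      rw [symmDiff_self] at this
      simp at this
      nlinarith
    have h4 : insert a Z ∈ (good G ε).powerset.filter (fun Z => Sep Z) := by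
      rw [Finset.mem_filter, Finset.mem_powerset]
      refine ⟨Finset.insert_subset ha hZ.1, ?_⟩
      intro x hx y hy hxy
      rw [Finset.mem_insert] at hx hy
      rcases hx with rfl | hx
      · rcases hy with rfl | hy
        · exact absurd rfl hxy
        · exact hcon y hy
      · rcases hy with rfl | hy
        · rw [symmDiff_comm]; exact hcon x hx
        · exact hZ.2 x hx y hy hxy
    have h5 := hZmax _ h4
    rw [Finset.card_insert_of_notMem haZ] at h5
    omega
  have hcover : good G ε ⊆ Z.biUnion (fun z => (good G ε).filter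
      (fun a => ((symmDiff (nb G a) (nb G z)).card : ℝ) < δ * n)) := by
    intro a ha
    obtain ⟨z, hz, h3⟩ := hclose a ha
    rw [Finset.mem_biUnion]
    exact ⟨z, hz, Finset.mem_filter.2 ⟨ha, h3⟩⟩
  have hfib : ∀ z ∈ Z, ((((good G ε).filter
      (fun a => ((symmDiff (nb G a) (nb G z)).card : ℝ) < δ * n)).card : ℝ)) * γ ≤ 2 := by
    intro z _
    refine packing hn0 (cs G col ε) _ hγ ?_ ?_
    · intro a ha
      exact card_cs h hε hn a (Finset.mem_filter.1 ha).1
    · intro a ha b hb hab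
      have h3 := (Finset.mem_filter.1 ha).2
      have h4 := (Finset.mem_filter.1 hb).2
      have h5 := card_cs_inter h ε hab
      have h6 := card_symmDiff_triangle (nb G a) (nb G z) (nb G b)
      rw [symmDiff_comm (nb G z)] at h6
      have h7 : ((cs G col ε a ∩ cs G col ε b).card : ℝ) ≤ 2 * (δ * n) + 1 := by
        have h5' : ((cs G col ε a ∩ cs G col ε b).card : ℝ) ≤
          ((symmDiff (nb G a) (nb G b)).card : ℝ) + 1 := by exact_mod_cast h5
        have h6' : ((symmDiff (nb G a) (nb G b)).card : ℝ) ≤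
          ((symmDiff (nb G a) (nb G z)).card : ℝ) + ((symmDiff (nb G b) (nb G z)).card : ℝ) := by
          exact_mod_cast h6
        linarith
      refine h7.trans ?_
      rw [hδd]
      nlinarith
  have h3 : ((good G ε).card : ℝ) ≤ ∑ z ∈ Z, (((good G ε).filter
      (fun a => ((symmDiff (nb G a) (nb G z)).card : ℝ) < δ * n)).card : ℝ) := by
    have := (Finset.card_le_card hcover).trans Finset.card_biUnion_le
    exact_mod_cast this
  have h4 : ((good G ε).card : ℝ) * γ ≤ (Z.card : ℝ) * 2 := by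
    calc ((good G ε).card : ℝ) * γ ≤ (∑ z ∈ Z, (((good G ε).filter
      (fun a => ((symmDiff (nb G a) (nb G z)).card : ℝ) < δ * n)).card : ℝ)) * γ :=
          mul_le_mul_of_nonneg_right h3 hγ.le
      _ = ∑ z ∈ Z, (((good G ε).filter
      (fun a => ((symmDiff (nb G a) (nb G z)).card : ℝ) < δ * n)).card : ℝ) * γ :=
          Finset.sum_mul _ _ _
      _ ≤ ∑ z ∈ Z, (2 : ℝ) := Finset.sum_le_sum hfib
      _ = (Z.card : ℝ) * 2 := by rw [Finset.sum_const, nsmul_eq_mul]
  have h5 := card_good hε hn0 he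
  have h6 : ε * n * γ ≤ (Z.card : ℝ) * 2 := (mul_le_mul_of_nonneg_right h5 hγ.le).trans h4
  rw [hγd] at h6
  nlinarith

end Pool.Agent.Helper14.RC4
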