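import Pool.Agent.Helper14.RC4.Packing

/-!
Unbounded Vapnik-Chervonenkis dimension.
-/

set_option autoImplicit false

open Finset N2633a9ba

namespace Pool.Agent.Helper14.RC4

/-- The usual bound for sums of binomial coefficients. -/
lemma sum_choose_le_exp {s d : ℕ} (hd : 1 ≤ d) (hds : d ≤ s) :
    ((∑ k ∈ range (d + 1), s.choose k : ℕ) : ℝ) ≤ (Real.exp 1 * s / d) ^ d := by
  have hd0 : (0 : ℝ) < d := by exact_mod_cast hd
  have hs0 : (0 : ℝ) < s := by exact_mod_cast (by omega : 0 < s)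
  set x : ℝ := d / s with hx
  have hx0 : 0 < x := by positivity
  have hx1 : x ≤ 1 := by
    rw [hx, div_le_one hs0]
    exact_mod_cast hds
  have h1 : x ^ d * ((∑ k ∈ range (d + 1), s.choose k : ℕ) : ℝ) ≤ Real.exp d := by
    calc x ^ d * ((∑ k ∈ range (d + 1), s.choose k : ℕ) : ℝ)
        = ∑ k ∈ range (d + 1), x ^ d * (s.choose k : ℝ) := by
          push_cast; rw [Finset.mul_sum]
      _ ≤ ∑ k ∈ range (d + 1), x ^ k * (s.choose k : ℝ) := by
          refine Finset.sum_le_sum fun k hk => ?_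
          rw [Finset.mem_range] at hk
          exact mul_le_mul_of_nonneg_right (pow_le_pow_of_le_one hx0.le hx1 (by omega))
            (by positivity)
      _ ≤ ∑ k ∈ range (s + 1), x ^ k * (s.choose k : ℝ) := by
          refine Finset.sum_le_sum_of_subset_of_nonneg ?_ fun k _ _ => by positivity
          intro k hk
          rw [Finset.mem_range] at hk ⊢
          omega
      _ = (x + 1) ^ s := by
          rw [add_pow]
          refine Finset.sum_congr rfl fun k _ => ?_
          rw [one_pow, mul_one]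
      _ ≤ (Real.exp x) ^ s := pow_le_pow_left₀ (by positivity) (Real.add_one_le_exp x) s
      _ = Real.exp d := by
          rw [← Real.exp_nat_mul, hx]
          congr 1
          field_simp
  have h2 : (Real.exp 1 * s / d) ^ d = Real.exp d / x ^ d := by
    have h3 : Real.exp 1 * s / d = Real.exp 1 / x := by
      rw [hx]; field_simp
    rw [h3, div_pow, ← Real.exp_nat_mul, mul_one]
  rw [h2, le_div_iff₀ (by positivity), mul_comm]
  exact h1

lemma card_small_subsets {α : Type*} [DecidableEq α] (X : Finset α) (d : ℕ) :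
    (X.powerset.filter (fun Y => Y.card ≤ d)).card ≤ ∑ k ∈ range (d + 1), X.card.choose k := by
  have h1 : X.powerset.filter (fun Y => Y.card ≤ d) ⊆
      (range (d + 1)).biUnion (fun k => X.powersetCard k) := by
    intro Y hY
    rw [Finset.mem_filter, Finset.mem_powerset] at hY
    rw [Finset.mem_biUnion]
    exact ⟨Y.card, Finset.mem_range.2 (by omega), Finset.mem_powersetCard.2 ⟨hY.1, rfl⟩⟩
  calc _ ≤ _ := Finset.card_le_card h1
    _ ≤ ∑ k ∈ range (d + 1), (X.powersetCard k).card := Finset.card_biUnion_le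
    _ = ∑ k ∈ range (d + 1), X.card.choose k :=
        Finset.sum_congr rfl fun k _ => Finset.card_powersetCard k X

open Classical in
/-- Ordered pairs of distinct elements of Z with the same trace on X. -/
noncomputable def uns {n : ℕ} (G : SimpleGraph (Fin n)) (Z X : Finset (Fin n)) :
    Finset (Fin n × Fin n) :=
  (Z ×ˢ Z).filter (fun p => p.1 ≠ p.2 ∧ ∀ x ∈ X, (G.Adj p.1 x ↔ G.Adj p.2 x))

lemma mem_uns {n : ℕ} {G : SimpleGraph (Fin n)} {Z X : Finset (Fin n)} {p : Fin n × Fin n} :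
    p ∈ uns G Z X ↔ (p.1 ∈ Z ∧ p.2 ∈ Z) ∧ p.1 ≠ p.2 ∧ ∀ x ∈ X, (G.Adj p.1 x ↔ G.Adj p.2 x) := by
  simp [uns]

lemma greedy {n : ℕ} (hn : 0 < n) {G : SimpleGraph (Fin n)} {c : ℝ} (hc1 : c ≤ 1)
    (Z : Finset (Fin n))
    (hZ : ∀ a ∈ Z, ∀ b ∈ Z, a ≠ b → c * n ≤ ((symmDiff (nb G a) (nb G b)).card : ℝ)) (t : ℕ) :
    ∃ X : Finset (Fin n), X.card ≤ t ∧ ((uns G Z X).card : ℝ) ≤ (1 - c) ^ t * (n : ℝ) ^ 2 := by
  classical
  have hnr : (0 : ℝ) < n := by exact_mod_cast hn
  induction t with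
  | zero =>
    refine ⟨∅, by simp, ?_⟩
    rw [pow_zero, one_mul]
    have h1 : (uns G Z ∅).card ≤ n * n := by
      calc (uns G Z ∅).card ≤ (Z ×ˢ Z).card := Finset.card_filter_le _ _
        _ = Z.card * Z.card := Finset.card_product _ _
        _ ≤ n * n := by
          have : Z.card ≤ n := by simpa using Finset.card_le_univ Z
          exact Nat.mul_le_mul this this
    have h2 : ((uns G Z ∅).card : ℝ) ≤ (n : ℝ) * n := by exact_mod_cast h1
    linarith [sq (n : ℝ)]
  | succ t ih =>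
    obtain ⟨X, hX, hXu⟩ := ih
    -- averaging
    have hsum : ∑ v, (((uns G Z X).filter
        (fun p => v ∈ symmDiff (nb G p.1) (nb G p.2))).card : ℝ) =
        ∑ p ∈ uns G Z X, ((symmDiff (nb G p.1) (nb G p.2)).card : ℝ) := by
      have h1 : ∀ v, (((uns G Z X).filter
        (fun p => v ∈ symmDiff (nb G p.1) (nb G p.2))).card : ℝ) =
          ∑ p ∈ uns G Z X, if v ∈ symmDiff (nb G p.1) (nb G p.2) then (1 : ℝ) else 0 := by
        intro v; rw [Finset.sum_boole]
      have h2 : ∀ p : Fin n × Fin n, ((symmDiff (nb G p.1) (nb G p.2)).card : ℝ) =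
          ∑ v, if v ∈ symmDiff (nb G p.1) (nb G p.2) then (1 : ℝ) else 0 := by
        intro p; rw [Finset.sum_boole]; congr 2; ext v; simp
      simp_rw [h1, h2]
      exact Finset.sum_comm
    have hlow : ((uns G Z X).card : ℝ) * (c * n) ≤
        ∑ p ∈ uns G Z X, ((symmDiff (nb G p.1) (nb G p.2)).card : ℝ) := by
      rw [← nsmul_eq_mul, ← Finset.sum_const]
      refine Finset.sum_le_sum fun p hp => ?_
      rw [mem_uns] at hp
      exact hZ _ hp.1.1 _ hp.1.2 hp.2.1
    obtain ⟨v, hv⟩ : ∃ v, c * ((uns G Z X).card : ℝ) ≤ (((uns G Z X).filter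
        (fun p => v ∈ symmDiff (nb G p.1) (nb G p.2))).card : ℝ) := by
      by_contra hcon
      push Not at hcon
      have h3 : ∑ v, (((uns G Z X).filter
        (fun p => v ∈ symmDiff (nb G p.1) (nb G p.2))).card : ℝ) <
          ∑ v : Fin n, c * ((uns G Z X).card : ℝ) := by
        have : Nonempty (Fin n) := ⟨⟨0, hn⟩⟩
        exact Finset.sum_lt_sum_of_nonempty Finset.univ_nonempty fun v _ => hcon v
      rw [Finset.sum_const, nsmul_eq_mul, Finset.card_univ, Fintype.card_fin, hsum] at h3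
      linarith
    refine ⟨insert v X, (Finset.card_insert_le _ _).trans (by omega), ?_⟩
    have hsub : (uns G Z (insert v X)).card + ((uns G Z X).filter
        (fun p => v ∈ symmDiff (nb G p.1) (nb G p.2))).card ≤ (uns G Z X).card := by
      rw [← Finset.card_filter_add_card_filter_not (s := uns G Z X)
        (fun p => v ∈ symmDiff (nb G p.1) (nb G p.2)), add_comm]
      refine Nat.add_le_add_left (Finset.card_le_card ?_) _
      intro p hp
      rw [mem_uns] at hp
      rw [Finset.mem_filter, mem_uns]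
      refine ⟨⟨hp.1, hp.2.1, fun x hx => hp.2.2 x (Finset.mem_insert_of_mem hx)⟩, ?_⟩
      have h4 := hp.2.2 v (Finset.mem_insert_self _ _)
      rw [Finset.mem_symmDiff, mem_nb, mem_nb]
      tauto
    have hsub' : ((uns G Z (insert v X)).card : ℝ) + (((uns G Z X).filter
        (fun p => v ∈ symmDiff (nb G p.1) (nb G p.2))).card : ℝ) ≤ ((uns G Z X).card : ℝ) := by
      exact_mod_cast hsub
    calc ((uns G Z (insert v X)).card : ℝ) ≤ (1 - c) * ((uns G Z X).card : ℝ) := by linarith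
      _ ≤ (1 - c) * ((1 - c) ^ t * (n : ℝ) ^ 2) :=
          mul_le_mul_of_nonneg_left hXu (by linarith)
      _ = (1 - c) ^ (t + 1) * (n : ℝ) ^ 2 := by ring

/-- Sauer-Shelah applied to traces of a separated family. -/
lemma sauer {n : ℕ} {G : SimpleGraph (Fin n)} (Z X : Finset (Fin n)) (d : ℕ)
    (hun : uns G Z X = ∅)
    (hd : ∀ X : Finset (Fin n), (∀ Y ⊆ X, ∃ v, ∀ x ∈ X, G.Adj v x ↔ x ∈ Y) → X.card ≤ d) :
    Z.card ≤ ∑ k ∈ range (d + 1), X.card.choose k := by
  classical
  set 𝒜 : Finset (Finset (Fin n)) := Z.image (fun a => nb G a ∩ X) with h𝒜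
  have hinj : Set.InjOn (fun a => nb G a ∩ X) (Z : Set (Fin n)) := by
    intro a ha b hb hab
    by_contra hne
    have h1 : (a, b) ∈ uns G Z X := by
      rw [mem_uns]
      refine ⟨⟨ha, hb⟩, hne, fun x hx => ?_⟩
      have h2 := congrArg (fun S : Finset (Fin n) => x ∈ S) hab
      simp only [Finset.mem_inter, mem_nb, hx, and_true, eq_iff_iff] at h2
      exact h2
    rw [hun] at h1
    simp at h1
  have hcard : 𝒜.card = Z.card := Finset.card_image_of_injOn hinj
  rw [← hcard]
  refine (Finset.card_le_card_shatterer 𝒜).trans ?_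
  refine le_trans (Finset.card_le_card ?_) (card_small_subsets X d)
  intro Y hY
  rw [Finset.mem_shatterer] at hY
  rw [Finset.mem_filter, Finset.mem_powerset]
  have hYX : Y ⊆ X := by
    obtain ⟨u, hu, hYu⟩ := hY (Finset.Subset.refl Y)
    rw [h𝒜, Finset.mem_image] at hu
    obtain ⟨a, -, rfl⟩ := hu
    intro y hy
    rw [← hYu] at hy
    exact (Finset.mem_inter.1 (Finset.mem_inter.1 hy).2).2
  refine ⟨hYX, hd Y fun t ht => ?_⟩
  obtain ⟨u, hu, hYu⟩ := hY ht
  rw [h𝒜, Finset.mem_image] at hu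
  obtain ⟨a, -, rfl⟩ := hu
  refine ⟨a, fun x hx => ?_⟩
  rw [← hYu, Finset.mem_inter, Finset.mem_inter, mem_nb]
  constructor
  · intro h1
    exact ⟨hx, h1, hYX hx⟩
  · intro h1
    exact h1.2.1

/-- A small separating set. -/
lemma exists_small {n : ℕ} (hn : 3 ≤ n) {G : SimpleGraph (Fin n)} {c : ℝ} (hc0 : 0 < c)
    (hc1 : c ≤ 1) (Z : Finset (Fin n))
    (hZ : ∀ a ∈ Z, ∀ b ∈ Z, a ≠ b → c * n ≤ ((symmDiff (nb G a) (nb G b)).card : ℝ)) :
    ∃ X : Finset (Fin n), X.card ≤ ⌊2 / c * Real.log n⌋₊ + 1 ∧ uns G Z X = ∅ := by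
  have hnr : (0 : ℝ) < n := by exact_mod_cast (by omega : 0 < n)
  set t : ℕ := ⌊2 / c * Real.log n⌋₊ + 1 with ht
  have ht1 : 2 / c * Real.log n < t := by
    rw [ht]; push_cast; exact Nat.lt_floor_add_one _
  obtain ⟨X, hX, hXu⟩ := greedy (by omega) hc1 Z hZ t
  have hsmall : (1 - c) ^ t * (n : ℝ) ^ 2 < 1 := by
    have h1 : (1 - c) ^ t ≤ Real.exp (-c * t) := by
      calc (1 - c) ^ t ≤ (Real.exp (-c)) ^ t :=
            pow_le_pow_left₀ (by linarith) (Real.one_sub_le_exp_neg c) t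
        _ = Real.exp (-c * t) := by rw [← Real.exp_nat_mul]; ring_nf
    have h2 : -c * t < -2 * Real.log n := by
      have h3 : c * (2 / c * Real.log n) < c * t := mul_lt_mul_of_pos_left ht1 hc0
      have h4 : c * (2 / c * Real.log n) = 2 * Real.log n := by field_simp
      linarith
    have h3 : Real.exp (-c * t) < Real.exp (-2 * Real.log n) := Real.exp_lt_exp.2 h2
    have h4 : Real.exp (-2 * Real.log n) * (n : ℝ) ^ 2 = 1 := by
      have h5 : (n : ℝ) ^ 2 = Real.exp (2 * Real.log n) := by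
        rw [two_mul, Real.exp_add, Real.exp_log hnr, sq]
      rw [h5, ← Real.exp_add]
      ring_nf
      exact Real.exp_zero
    calc (1 - c) ^ t * (n : ℝ) ^ 2 ≤ Real.exp (-c * t) * (n : ℝ) ^ 2 :=
          mul_le_mul_of_nonneg_right h1 (by positivity)
      _ < Real.exp (-2 * Real.log n) * (n : ℝ) ^ 2 :=
          mul_lt_mul_of_pos_right h3 (by positivity)
      _ = 1 := h4
  refine ⟨X, hX, ?_⟩
  rw [← Finset.card_eq_zero]
  have h1 : ((uns G Z X).card : ℝ) < 1 := lt_of_le_of_lt hXu hsmall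
  have h2 : (uns G Z X).card < 1 := by exact_mod_cast h1
  omega

/-- A separated family of linear size forces VC dimension of order log n. -/
theorem vc_log {c : ℝ} (hc0 : 0 < c) (hc1 : c ≤ 1) :
    ∃ κ : ℝ, 0 < κ ∧ ∃ n₀ : ℕ, ∀ n ≥ n₀, ∀ G : SimpleGraph (Fin n), ∀ Z : Finset (Fin n),
      c * n ≤ (Z.card : ℝ) →
      (∀ a ∈ Z, ∀ b ∈ Z, a ≠ b → c * n ≤ ((symmDiff (nb G a) (nb G b)).card : ℝ)) →
      ∃ X : Finset (Fin n), κ * Real.log n ≤ (X.card : ℝ) ∧
        ∀ Y ⊆ X, ∃ v, ∀ x ∈ X, G.Adj v x ↔ x ∈ Y := by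
  set K : ℝ := 2 * Real.exp 1 * (2 / c + 1) with hK
  have he1 : (2 : ℝ) < Real.exp 1 := by linarith [Real.exp_one_gt_d9]
  have hc2 : 2 ≤ 2 / c := by rw [le_div_iff₀ hc0]; linarith
  have hKpos : 12 ≤ K := by rw [hK]; nlinarith
  set κ : ℝ := 1 / (16 * K) with hκ
  have hκ0 : 0 < κ := by positivity
  have hκ1 : κ ≤ 1 := by
    rw [hκ, div_le_one (by positivity)]
    linarith
  refine ⟨κ, hκ0, max 3 (max (⌈Real.exp (1 / κ)⌉₊) (⌈1 / c ^ 2⌉₊ + 1)), ?_⟩
  intro n hn G Z hZc hZ
  have hn3 : 3 ≤ n := (le_max_left _ _).trans hn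
  have hnr : (0 : ℝ) < n := by exact_mod_cast (by omega : 0 < n)
  have hn4 : Real.exp (1 / κ) ≤ n := by
    have h1 : ⌈Real.exp (1 / κ)⌉₊ ≤ n :=
      ((le_max_left _ _).trans (le_max_right _ _)).trans hn
    exact (Nat.le_ceil _).trans (by exact_mod_cast h1)
  have hn5 : 1 / c ^ 2 < n := by
    have h1 : ⌈1 / c ^ 2⌉₊ + 1 ≤ n :=
      ((le_max_right _ _).trans (le_max_right _ _)).trans hn
    calc 1 / c ^ 2 ≤ (⌈1 / c ^ 2⌉₊ : ℝ) := Nat.le_ceil _
      _ < n := by exact_mod_cast (by omega : ⌈1 / c ^ 2⌉₊ < n)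
  have hlogκ : 1 ≤ κ * Real.log n := by
    have h1 : 1 / κ ≤ Real.log n := by
      rw [Real.le_log_iff_exp_le hnr]; exact hn4
    calc 1 = κ * (1 / κ) := by field_simp
      _ ≤ κ * Real.log n := mul_le_mul_of_nonneg_left h1 hκ0.le
  have hlog : 1 ≤ Real.log n := by nlinarith
  by_contra hcon
  push Not at hcon
  set D : ℕ := ⌊κ * Real.log n⌋₊ with hD
  have hD1 : 1 ≤ D := by
    rw [hD]; exact Nat.le_floor (by simpa using hlogκ)
  have hDle : (D : ℝ) ≤ κ * Real.log n := Nat.floor_le (by linarith)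
  have hDge : κ * Real.log n / 2 ≤ D := by
    have h1 : κ * Real.log n < D + 1 := Nat.lt_floor_add_one _
    have h2 : (1 : ℝ) ≤ D := by exact_mod_cast hD1
    linarith
  obtain ⟨X, hX, hun⟩ := exists_small hn3 hc0 hc1 Z hZ
  set t : ℕ := ⌊2 / c * Real.log n⌋₊ + 1 with ht
  have ht2 : (t : ℝ) ≤ (2 / c + 1) * Real.log n := by
    rw [ht]; push_cast
    have := Nat.floor_le (show (0 : ℝ) ≤ 2 / c * Real.log n by positivity)
    linarith
  have hDt : D ≤ t := by
    rw [hD, ht]
    refine (Nat.floor_le_floor ?_).trans (Nat.le_succ _)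
    exact mul_le_mul_of_nonneg_right (by linarith) (by linarith)
  have h1 : Z.card ≤ ∑ k ∈ range (D + 1), X.card.choose k := by
    refine sauer Z X D hun fun X' hX' => ?_
    by_contra h2
    rw [not_le] at h2
    have h3 : κ * Real.log n ≤ (X'.card : ℝ) := by
      have h4 : κ * Real.log n < D + 1 := Nat.lt_floor_add_one _
      have h5 : (D : ℝ) + 1 ≤ X'.card := by exact_mod_cast h2
      linarith
    obtain ⟨Y, hY, hY2⟩ := hcon X' h3
    obtain ⟨v, hv⟩ := hX' Y hY
    obtain ⟨x, hx, hx2⟩ := hY2 v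
    rcases hx2 with h6 | h6
    · exact h6.2 ((hv x hx).1 h6.1)
    · exact h6.1 ((hv x hx).2 h6.2)
  have h2 : ∑ k ∈ range (D + 1), X.card.choose k ≤ ∑ k ∈ range (D + 1), t.choose k :=
    Finset.sum_le_sum fun k _ => Nat.choose_le_choose k hX
  have h3 : (Z.card : ℝ) ≤ (Real.exp 1 * t / D) ^ D := by
    calc (Z.card : ℝ) ≤ ((∑ k ∈ range (D + 1), t.choose k : ℕ) : ℝ) := by
          exact_mod_cast h1.trans h2
      _ ≤ _ := sum_choose_le_exp hD1 hDt
  have hDr : (0 : ℝ) < D := by exact_mod_cast hD1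
  have h4 : Real.exp 1 * t / D ≤ K / κ := by
    rw [div_le_div_iff₀ hDr hκ0, hK]
    have h5 : Real.exp 1 * t * κ ≤ Real.exp 1 * ((2 / c + 1) * Real.log n) * κ := by
      refine mul_le_mul_of_nonneg_right (mul_le_mul_of_nonneg_left ht2 ?_) hκ0.le
      positivity
    have h6 : 2 * Real.exp 1 * (2 / c + 1) * (κ * Real.log n / 2) ≤
        2 * Real.exp 1 * (2 / c + 1) * D :=
      mul_le_mul_of_nonneg_left hDge (by positivity)
    have h7 : 2 * Real.exp 1 * (2 / c + 1) * (κ * Real.log n / 2) =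
        Real.exp 1 * ((2 / c + 1) * Real.log n) * κ := by ring
    linarith
  have hKκ : 1 ≤ K / κ := by
    rw [le_div_iff₀ hκ0]
    linarith
  have h5 : (Z.card : ℝ) ≤ Real.exp (Real.log n / 2) := by
    calc (Z.card : ℝ) ≤ (Real.exp 1 * t / D) ^ D := h3
      _ ≤ (K / κ) ^ D := pow_le_pow_left₀ (by positivity) h4 D
      _ = Real.exp (D * Real.log (K / κ)) := by
          rw [mul_comm, Real.exp_mul, Real.exp_log (by positivity)]
          exact (Real.rpow_natCast _ _).symm
      _ ≤ Real.exp (Real.log n / 2) := by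
          apply Real.exp_le_exp.2
          have h6 : Real.log (K / κ) ≤ 1 / (2 * κ) := by
            have h7 : Real.log (K / κ) = 2 * Real.log (Real.sqrt (K / κ)) := by
              rw [Real.log_sqrt (by positivity)]; ring
            have h8 : Real.log (Real.sqrt (K / κ)) ≤ Real.sqrt (K / κ) := by
              have := Real.log_le_sub_one_of_pos (show 0 < Real.sqrt (K / κ) by positivity)
              linarith
            have h9 : Real.sqrt (K / κ) = 1 / (4 * κ) := by
              have h10 : K / κ = (1 / (4 * κ)) ^ 2 := by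
                rw [hκ]; field_simp; ring
              rw [h10]
              exact Real.sqrt_sq (by positivity)
            rw [h7]
            calc 2 * Real.log (Real.sqrt (K / κ)) ≤ 2 * Real.sqrt (K / κ) := by linarith
              _ = 1 / (2 * κ) := by rw [h9]; field_simp; norm_num
          have h7 : 0 ≤ Real.log (K / κ) := Real.log_nonneg hKκ
          calc D * Real.log (K / κ) ≤ (κ * Real.log n) * Real.log (K / κ) :=
                mul_le_mul_of_nonneg_right hDle h7
            _ ≤ (κ * Real.log n) * (1 / (2 * κ)) :=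
                mul_le_mul_of_nonneg_left h6 (by linarith)
            _ = Real.log n / 2 := by field_simp
  have h6 : Real.exp (Real.log n / 2) = Real.sqrt n := by
    rw [Real.sqrt_eq_rpow, Real.rpow_def_of_pos hnr]
    ring_nf
  rw [h6] at h5
  have h7 : c * n ≤ Real.sqrt n := hZc.trans h5
  have h8 : Real.sqrt n * Real.sqrt n = n := Real.mul_self_sqrt hnr.le
  have h9 : 0 < Real.sqrt n := Real.sqrt_pos.2 hnr
  have h10 : c * Real.sqrt n ≤ 1 := by nlinarith
  have h11 : c ^ 2 * n ≤ 1 := by nlinarith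
  have h12 : 1 < c ^ 2 * n := by
    rw [div_lt_iff₀ (by positivity)] at hn5
    linarith
  linarith

end Pool.Agent.Helper14.RC4
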